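import Pool.Agent.Helper77.PPL.Goals
import Pool.Agent.Helper42.RD.VAL
import Pool.Agent.Helper11.RP.NSP

/-!
# Project PP (MP_fc6b1e_nt): packet PPL-D_LPN

The `P`-part is locally trivial at the primes with nontrivial decomposition group above the primes `v` with
`N(v) ≡ 1 mod p`.
-/

namespace Pool.Agent.Helper98.PPL

open NumberField Polynomial Module IsDedekindDomain Pool.Agent.Helper51.SigLeo
open Pool.Agent.Helper51.RP
open Pool.Agent.Helper11.RP (um um_val um_mul dec)
open Pool.Agent.Helper42.RD (locPow_mul locPow_inv locPow_pow locPow_pth locPow_mul_pth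
  locPow_of_sub exists_int_close val_of_notMem val_div_of_sub_mem)

section res

variable {p : ℕ} {K M : Type} [Field K] [NumberField K] [Field M] [NumberField M] [Algebra K M]
  (w : HeightOneSpectrum (𝓞 M)) (v : HeightOneSpectrum (𝓞 K))

/-- An automorphism which preserves `w` acts on the residue field by a power `t ≡ 1 mod p`: it acts
trivially modulo `p`-th powers. -/
theorem exists_pth (hp : p.Prime) (hab : Above w v) (hN : p ∣ Ideal.absNorm v.asIdeal - 1)
    (g : M ≃ₐ[K] M) (hg : ∀ y : M, w.valuation M (g y) = w.valuation M y) (c : 𝓞 M)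
    (hc : c ∉ w.asIdeal) :
    ∃ a : 𝓞 M, a ∉ w.asIdeal ∧
      RingOfIntegers.mapRingHom (g : M →+* M) c - c * a ^ p ∈ w.asIdeal := by
  classical
  have hwm : w.asIdeal.IsMaximal := w.isMaximal
  have hvm : v.asIdeal.IsMaximal := v.isMaximal
  let _ : Field (𝓞 M ⧸ w.asIdeal) := Ideal.Quotient.field _
  let _ : Field (𝓞 K ⧸ v.asIdeal) := Ideal.Quotient.field _
  have hfin : Finite (𝓞 M ⧸ w.asIdeal) := inferInstance
  have hcyc : IsCyclic (𝓞 M ⧸ w.asIdeal)ˣ := inferInstance
  have hle : w.asIdeal ≤ Ideal.comap (RingOfIntegers.mapRingHom (g : M →+* M)) w.asIdeal := by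
    intro x hx
    show RingOfIntegers.mapRingHom (g : M →+* M) x ∈ w.asIdeal
    rw [← w.valuation_lt_one_iff_mem (K := M)] at hx ⊢
    have h : w.valuation M (g (x : M)) < 1 := by rw [hg]; exact hx
    exact h
  obtain ⟨σ, hσ⟩ : ∃ σ : (𝓞 M ⧸ w.asIdeal) →+* (𝓞 M ⧸ w.asIdeal), ∀ x : 𝓞 M,
      σ (Ideal.Quotient.mk w.asIdeal x) =
        Ideal.Quotient.mk w.asIdeal (RingOfIntegers.mapRingHom (g : M →+* M) x) :=
    ⟨Ideal.quotientMap w.asIdeal _ hle, fun x => Ideal.quotientMap_mk⟩
  obtain ⟨t, ht⟩ := MonoidHom.map_cyclic (Units.map (σ : (𝓞 M ⧸ w.asIdeal) →* (𝓞 M ⧸ w.asIdeal)))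
  -- an element of order `p` coming from below
  have hle2 : v.asIdeal ≤ Ideal.comap (algebraMap (𝓞 K) (𝓞 M)) w.asIdeal := by
    have h : w.asIdeal.comap (algebraMap (𝓞 K) (𝓞 M)) = v.asIdeal := hab
    rw [h]
  obtain ⟨φ, hφ⟩ : ∃ φ : (𝓞 K ⧸ v.asIdeal) →+* (𝓞 M ⧸ w.asIdeal), ∀ x : 𝓞 K,
      φ (Ideal.Quotient.mk v.asIdeal x) =
        Ideal.Quotient.mk w.asIdeal (algebraMap (𝓞 K) (𝓞 M) x) :=
    ⟨Ideal.quotientMap w.asIdeal _ hle2, fun x => Ideal.quotientMap_mk⟩
  have hpt : (p : ℤ) ∣ t - 1 := by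
    have hcard : Nat.card (𝓞 K ⧸ v.asIdeal)ˣ = Ideal.absNorm v.asIdeal - 1 := by
      rw [Nat.card_units, Ideal.absNorm_apply, Submodule.cardQuot_apply]
    have hpF : Fact p.Prime := ⟨hp⟩
    obtain ⟨b, hb⟩ := exists_prime_orderOf_dvd_card' p (hcard ▸ hN)
    have hinj : Function.Injective (Units.map (φ : (𝓞 K ⧸ v.asIdeal) →* (𝓞 M ⧸ w.asIdeal))) :=
      Units.map_injective φ.injective
    have hord : orderOf (Units.map (φ : (𝓞 K ⧸ v.asIdeal) →* (𝓞 M ⧸ w.asIdeal)) b) = p := by
      rw [orderOf_injective _ hinj, hb]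
    have hfix : Units.map (σ : (𝓞 M ⧸ w.asIdeal) →* (𝓞 M ⧸ w.asIdeal))
        (Units.map (φ : (𝓞 K ⧸ v.asIdeal) →* (𝓞 M ⧸ w.asIdeal)) b) =
        Units.map (φ : (𝓞 K ⧸ v.asIdeal) →* (𝓞 M ⧸ w.asIdeal)) b := by
      apply Units.ext
      show σ (φ (b : 𝓞 K ⧸ v.asIdeal)) = φ (b : 𝓞 K ⧸ v.asIdeal)
      obtain ⟨b₀, hb₀⟩ := Ideal.Quotient.mk_surjective (b : 𝓞 K ⧸ v.asIdeal)
      rw [← hb₀, hφ, hσ]
      congr 1
      apply RingOfIntegers.ext
      show g (algebraMap K M (b₀ : K)) = algebraMap K M (b₀ : K)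
      exact g.commutes _
    rw [ht] at hfix
    have h1 : (Units.map (φ : (𝓞 K ⧸ v.asIdeal) →* (𝓞 M ⧸ w.asIdeal)) b) ^ (t - 1) = 1 := by
      rw [zpow_sub_one, hfix, mul_inv_cancel]
    have h2 := orderOf_dvd_iff_zpow_eq_one.2 h1
    rwa [hord] at h2
  obtain ⟨k, hk⟩ := hpt
  have hc0 : Ideal.Quotient.mk w.asIdeal c ≠ 0 := by
    rw [Ne, Ideal.Quotient.eq_zero_iff_mem]; exact hc
  obtain ⟨a, ha⟩ := Ideal.Quotient.mk_surjective
    (((Units.mk0 _ hc0 ^ k : (𝓞 M ⧸ w.asIdeal)ˣ)) : 𝓞 M ⧸ w.asIdeal)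
  refine ⟨a, ?_, ?_⟩
  · intro h
    rw [← Ideal.Quotient.eq_zero_iff_mem, ha] at h
    exact (Units.ne_zero _) h
  · rw [← Ideal.Quotient.eq, ← hσ, map_mul, map_pow, ha]
    have h1 := congrArg (fun z : (𝓞 M ⧸ w.asIdeal)ˣ => (z : 𝓞 M ⧸ w.asIdeal))
      (ht (Units.mk0 _ hc0))
    have h2 : σ (Ideal.Quotient.mk w.asIdeal c) =
        ((Units.mk0 _ hc0 ^ t : (𝓞 M ⧸ w.asIdeal)ˣ) : 𝓞 M ⧸ w.asIdeal) := h1
    rw [h2]
    have h3 : t = 1 + k * p := by linarith
    rw [h3, zpow_add, zpow_one, zpow_mul, zpow_natCast, Units.val_mul, Units.val_pow_eq_pow_val,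
      Units.val_mk0]

/-- `g u / u` is locally a `p`-th power if `u` is a unit at `w`. -/
theorem locPow_one (hp : p.Prime) (hab : Above w v) (hN : p ∣ Ideal.absNorm v.asIdeal - 1)
    (g : M ≃ₐ[K] M) (hg : ∀ y : M, w.valuation M (g y) = w.valuation M y) (u : M)
    (hu : w.valuation M u = 1) : LocPow p w (g u / u) := by
  obtain ⟨c, hc, hcu⟩ := exists_int_close w hu
  obtain ⟨a, ha, hga⟩ := exists_pth w v hp hab hN g hg c hc
  have hu0 : u ≠ 0 := by rintro rfl; rw [map_zero] at hu; exact zero_ne_one hu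
  have hc0 : (c : M) ≠ 0 := by
    intro h
    have := val_of_notMem w hc
    rw [h, map_zero] at this
    exact zero_ne_one this
  have ha0 : (a : M) ≠ 0 := by
    intro h
    have := val_of_notMem w ha
    rw [h, map_zero] at this
    exact zero_ne_one this
  have hgu0 : g u ≠ 0 := by rw [Ne, map_eq_zero]; exact hu0
  have hgc0 : g (c : M) ≠ 0 := by rw [Ne, map_eq_zero]; exact hc0
  have hd : c * a ^ p ∉ w.asIdeal := by
    intro h
    rcases w.isPrime.mem_or_mem h with h1 | h1
    · exact hc h1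
    · exact ha (w.isPrime.mem_of_pow_mem _ h1)
  have h1 : LocPow p w (g (c : M) / ((c : M) * (a : M) ^ p)) := by
    refine locPow_of_sub w ?_
    have h := val_div_of_sub_mem w hd hga
    have e1 : ((RingOfIntegers.mapRingHom (g : M →+* M) c : 𝓞 M) : M) = g (c : M) := rfl
    have e2 : ((c * a ^ p : 𝓞 M) : M) = (c : M) * (a : M) ^ p := by push_cast; rfl
    rwa [e1, e2] at h
  have h2 : LocPow p w (g (c : M) / g u) := by
    refine locPow_of_sub w ?_
    have e : g (c : M) / g u - 1 = g ((c : M) / u - 1) := by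
      rw [map_sub, map_div₀, map_one]
    rw [e, hg]; exact hcu
  have h3 : LocPow p w ((c : M) / u) := locPow_of_sub w hcu
  have h4 := locPow_mul w (locPow_mul w h1 (locPow_inv w h2)) (locPow_mul w h3 (locPow_pth w ha0))
  have e : g (c : M) / ((c : M) * (a : M) ^ p) * (g (c : M) / g u)⁻¹ * ((c : M) / u * (a : M) ^ p) =
      g u / u := by
    field_simp
  rwa [e] at h4

/-- `g y / y` is locally a `p`-th power for all `y`. -/
theorem locPow_all (hp : p.Prime) (hab : Above w v) (hN : p ∣ Ideal.absNorm v.asIdeal - 1)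
    (g : M ≃ₐ[K] M) (hg : ∀ y : M, w.valuation M (g y) = w.valuation M y) (m : ℕ)
    (hgm : g ^ m = 1) (hm : m.Coprime p) (y : M) (hy : y ≠ 0) : LocPow p w (g y / y) := by
  have hgi : ∀ (i : ℕ) (z : M), w.valuation M ((g ^ i) z) = w.valuation M z := by
    intro i
    induction i with
    | zero => intro z; rfl
    | succ i ih =>
      intro z
      rw [pow_succ', AlgEquiv.mul_apply, hg, ih]
  have hgy0 : g y ≠ 0 := by rw [Ne, map_eq_zero]; exact hy
  have hvy : w.valuation M y ≠ 0 := (Valuation.ne_zero_iff _).2 hy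
  obtain ⟨z, hz⟩ : ∃ z, z = g y / y := ⟨_, rfl⟩
  have hz0 : z ≠ 0 := by rw [hz]; exact div_ne_zero hgy0 hy
  have hz1 : w.valuation M z = 1 := by rw [hz, map_div₀, hg, div_self hvy]
  have h1 : ∀ i : ℕ, LocPow p w ((g ^ i) z / z) := by
    intro i
    induction i with
    | zero =>
      refine locPow_of_sub w ?_
      rw [pow_zero, AlgEquiv.one_apply, div_self hz0, sub_self, map_zero]
      exact zero_lt_one
    | succ i ih =>
      have h2 := locPow_one w v hp hab hN g hg ((g ^ i) z) (by rw [hgi, hz1])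
      have h3 : (g ^ i) z ≠ 0 := by rw [Ne, map_eq_zero]; exact hz0
      have h4 := locPow_mul w h2 ih
      have e : g ((g ^ i) z) / (g ^ i) z * ((g ^ i) z / z) = (g ^ (i + 1)) z / z := by
        rw [pow_succ', AlgEquiv.mul_apply]
        field_simp
      rwa [e] at h4
  have h2 : ∀ n : ℕ, LocPow p w ((∏ i ∈ Finset.range n, (g ^ i) z) / z ^ n) := by
    intro n
    induction n with
    | zero =>
      refine locPow_of_sub w ?_
      rw [Finset.prod_range_zero, pow_zero, div_one, sub_self, map_zero]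
      exact zero_lt_one
    | succ n ih =>
      have h3 := locPow_mul w ih (h1 n)
      have e : (∏ i ∈ Finset.range n, (g ^ i) z) / z ^ n * ((g ^ n) z / z) =
          (∏ i ∈ Finset.range (n + 1), (g ^ i) z) / z ^ (n + 1) := by
        rw [Finset.prod_range_succ, pow_succ]
        field_simp
      rwa [e] at h3
  have h3 : ∀ n : ℕ, ∏ i ∈ Finset.range n, (g ^ i) z = (g ^ n) y / y := by
    intro n
    induction n with
    | zero =>
      rw [Finset.prod_range_zero, pow_zero, AlgEquiv.one_apply, div_self hy]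
    | succ n ih =>
      have h4 : (g ^ n) y ≠ 0 := by rw [Ne, map_eq_zero]; exact hy
      rw [Finset.prod_range_succ, ih, hz, map_div₀, pow_succ, AlgEquiv.mul_apply]
      field_simp
  have h4 : LocPow p w (z ^ m) := by
    have h5 := h2 m
    rw [h3, hgm, AlgEquiv.one_apply, div_self hy, one_div] at h5
    have h6 := locPow_inv w h5
    rwa [inv_inv] at h6
  -- `m` is prime to `p`
  rw [← hz]
  obtain ⟨s, -, hs⟩ := Nat.exists_mul_mod_eq_one_of_coprime hm hp.one_lt
  have h5 : m * s = 1 + p * (m * s / p) := by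
    have := Nat.div_add_mod (m * s) p
    rw [hs] at this
    omega
  have h6 := locPow_pow w h4 s
  rw [← pow_mul, h5, pow_add, pow_one, mul_comm p, pow_mul] at h6
  exact (locPow_mul_pth w (pow_ne_zero _ hz0)).1 h6

end res

section alg

/-- The subgroup of the local `p`-th powers. -/
def HW (p : ℕ) {M : Type} [Field M] [NumberField M] (w : HeightOneSpectrum (𝓞 M)) :
    Subgroup Mˣ where
  carrier := {x | LocPow p w (x : M)}
  one_mem' := locPow_of_sub w (by rw [Units.val_one, sub_self, map_zero]; exact zero_lt_one)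
  mul_mem' := by
    intro x y hx hy
    show LocPow p w ((x * y : Mˣ) : M)
    rw [Units.val_mul]
    exact locPow_mul w hx hy
  inv_mem' := by
    intro x hx
    show LocPow p w ((x⁻¹ : Mˣ) : M)
    rw [Units.val_inv_eq_inv_val]
    exact locPow_inv w hx

/-- The shift operator. -/
noncomputable def shiftV (p : ℕ) {G V : Type} [Group G] [AddCommGroup V] [Module (ZMod p) V]
    (δ : G) : Module.End (ZMod p) (G → V) where
  toFun f g := f (g * δ)
  map_add' f f' := rfl
  map_smul' c f := rfl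

theorem shiftV_pow (p : ℕ) {G V : Type} [Group G] [AddCommGroup V] [Module (ZMod p) V]
    (δ : G) (j : ℕ) (f : G → V) (g : G) : ((shiftV p δ) ^ j) f g = f (g * δ ^ j) := by
  induction j generalizing g with
  | zero => simp
  | succ j ih =>
    rw [pow_succ', Module.End.mul_apply]
    show ((shiftV p δ) ^ j) f (g * δ) = _
    rw [ih, mul_assoc, ← pow_succ']

theorem aeval_shiftV (p : ℕ) {G V : Type} [Group G] [AddCommGroup V] [Module (ZMod p) V]
    (δ : G) (P : (ZMod p)[X]) (f : G → V) (g : G) :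
    (aeval (shiftV p δ) P) f g = ∑ j ∈ P.support, P.coeff j • f (g * δ ^ j) := by
  rw [aeval_def, eval₂_eq_sum, Polynomial.sum, LinearMap.sum_apply, Finset.sum_apply]
  refine Finset.sum_congr rfl (fun j _ => ?_)
  rw [Module.End.mul_apply]
  show P.coeff j • ((shiftV p δ) ^ j) f g = _
  rw [shiftV_pow]

theorem fun_zero (p : ℕ) {G V : Type} [Group G] [AddCommGroup V] [Module (ZMod p) V]
    (δ : G) (P u v : (ZMod p)[X]) (e : ℕ) (h : u * P + v * (X ^ e - 1) = 1) (n : G → V)
    (hP : ∀ g, ∑ j ∈ P.support, P.coeff j • n (g * δ ^ j) = 0)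
    (hE : ∀ g, n (g * δ ^ e) = n g) : n = 0 := by
  have hPn : (aeval (shiftV p δ) P) n = 0 := by
    funext g
    rw [aeval_shiftV, hP]
    rfl
  have hEn : (aeval (shiftV p δ) (X ^ e - 1 : (ZMod p)[X])) n = 0 := by
    rw [map_sub, map_pow, aeval_X, map_one]
    funext g
    rw [LinearMap.sub_apply, Pi.sub_apply, shiftV_pow, Module.End.one_apply, Pi.zero_apply,
      sub_eq_zero]
    exact hE g
  have h1 : (aeval (shiftV p δ) (u * P + v * (X ^ e - 1))) n = n := by
    rw [h, map_one, Module.End.one_apply]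
  rw [← h1, map_add, map_mul, map_mul, LinearMap.add_apply, Module.End.mul_apply,
    Module.End.mul_apply, hPn, hEn, map_zero, map_zero, add_zero]

end alg

theorem d_lpn : Pool.Agent.Helper77.PPL.D_LPN := by
  intro p hpF k _ _ K M _ _ _ _ _ _ m δ ζ Φ P hP hδ hm w v hab hw hN x hx
  classical
  have hp : p.Prime := hpF.out
  have hm1 : 1 < m := hP.one_lt
  have hfin : FiniteDimensional K M := FiniteDimensional.of_finrank_pos (by omega)
  have hcard : Nat.card (M ≃ₐ[K] M) = m := by rw [IsGalois.card_aut_eq_finrank, hm]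
  have hgen : ∀ g : M ≃ₐ[K] M, g ∈ Subgroup.zpowers δ := by
    have : Subgroup.zpowers δ = ⊤ := by
      haveI : Finite (M ≃ₐ[K] M) := Nat.finite_of_card_ne_zero (by omega)
      apply Subgroup.eq_top_of_card_eq
      rw [Nat.card_zpowers, hδ, hcard]
    intro g; rw [this]; trivial
  -- an element of the decomposition group
  unfold FreeP at hw
  push Not at hw
  obtain ⟨h, hh, hne⟩ := hw
  have hhd : h ∈ dec K w := hh
  obtain ⟨e', he'⟩ := Subgroup.mem_zpowers_iff.1 (hgen h)
  set e : ℕ := Int.gcd e' m with he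
  have hem : e ∣ m := by
    have := Int.gcd_dvd_right (a := e') (b := m)
    exact_mod_cast this
  have he0 : 0 < e := Nat.pos_of_dvd_of_pos hem (by omega)
  have hedec : δ ^ e ∈ dec K w := by
    have h1 : (e : ℤ) = e' * Int.gcdA e' m + m * Int.gcdB e' m := Int.gcd_eq_gcd_ab e' m
    have h2 : δ ^ (e : ℤ) = h ^ (Int.gcdA e' m) := by
      rw [h1, zpow_add, zpow_mul, he', zpow_mul]
      have : δ ^ (m : ℤ) = 1 := by
        rw [zpow_natCast, ← hδ, pow_orderOf_eq_one]
      rw [this, one_zpow, mul_one]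
    rw [← zpow_natCast, h2]
    exact Subgroup.zpow_mem _ hhd _
  have helt : e < m := by
    rcases Nat.lt_or_ge e m with h1 | h1
    · exact h1
    · exfalso
      have h2 : e = m := le_antisymm (Nat.le_of_dvd (by omega) hem) h1
      have h3 : (m : ℤ) ∣ e' := by
        have := Int.gcd_dvd_left (a := e') (b := m)
        rw [← he, h2] at this
        exact this
      apply hne
      rw [← he']
      rw [← hδ] at h3
      exact orderOf_dvd_iff_zpow_eq_one.1 h3
  have hgm : (δ ^ e) ^ m = 1 := by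
    rw [← pow_mul, mul_comm, pow_mul, ← hδ, pow_orderOf_eq_one, one_pow]
  have hloc : ∀ y : Mˣ, LocPow p w ((um (δ ^ e) y : Mˣ) / (y : M)) := fun y =>
    locPow_all w v hp hab hN (δ ^ e) hedec m hgm hP.copm y y.ne_zero
  -- the group of the local classes
  obtain ⟨V, hV1, hV2, cl, hcl0, hclm⟩ : ∃ (V : Type) (_ : AddCommGroup V)
      (_ : Module (ZMod p) V) (cl : Mˣ → V), (∀ z, cl z = 0 ↔ LocPow p w (z : M)) ∧
      ∀ z z', cl (z * z') = cl z + cl z' := by
    refine ⟨Additive (Mˣ ⧸ HW p w), inferInstance, AddCommGroup.zmodModule ?_,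
      fun z => Additive.ofMul (QuotientGroup.mk z), ?_, ?_⟩
    · intro q
      obtain ⟨z, hz⟩ := QuotientGroup.mk_surjective (Additive.toMul q)
      have hq : q = Additive.ofMul (QuotientGroup.mk z) := by rw [hz]; rfl
      rw [hq]
      show Additive.ofMul ((QuotientGroup.mk z : Mˣ ⧸ HW p w) ^ p) = Additive.ofMul 1
      congr 1
      rw [← QuotientGroup.mk_pow, QuotientGroup.eq_one_iff]
      show LocPow p w ((z ^ p : Mˣ) : M)
      rw [Units.val_pow_eq_pow_val]
      exact locPow_pth w z.ne_zero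
    · intro z
      show (Additive.ofMul (QuotientGroup.mk z : Mˣ ⧸ HW p w) = Additive.ofMul 1) ↔ _
      rw [Additive.ofMul.injective.eq_iff, QuotientGroup.eq_one_iff]
      exact Iff.rfl
    · intro z z'
      rfl
  have hcl1 : cl 1 = 0 := by
    have h1 := hclm 1 1
    rw [mul_one] at h1
    exact left_eq_add.1 h1
  have hclp : ∀ (z : Mˣ) (n : ℕ), cl (z ^ n) = (n : ZMod p) • cl z := by
    intro z n
    induction n with
    | zero => rw [pow_zero, hcl1, Nat.cast_zero, zero_smul]
    | succ n ih => rw [pow_succ, hclm, ih, Nat.cast_succ, add_smul, one_smul]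
  have hclprod : ∀ (s : Finset ℕ) (f : ℕ → Mˣ), cl (∏ i ∈ s, f i) = ∑ i ∈ s, cl (f i) := by
    intro s f
    induction s using Finset.induction_on with
    | empty => rw [Finset.prod_empty, Finset.sum_empty, hcl1]
    | insert a s ha ih => rw [Finset.prod_insert ha, Finset.sum_insert ha, hclm, ih]
  obtain ⟨u, v', huv⟩ := hP.cop e he0 helt hem
  have hn := fun_zero p δ P u v' e huv (fun g => cl (um g x)) (by
    intro g
    obtain ⟨y, hy⟩ := hx
    have h1 : um g (pol P δ x) = ∏ j ∈ P.support, (um (g * δ ^ j) x) ^ (P.coeff j).val := by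
      unfold pol
      rw [MonoidHom.finsetProd_apply, map_prod]
      refine Finset.prod_congr rfl (fun j _ => ?_)
      rw [MonoidHom.pow_apply, map_pow, um_mul]
      rfl
    have h2 : cl (um g (pol P δ x)) = ∑ j ∈ P.support, P.coeff j • cl (um (g * δ ^ j) x) := by
      rw [h1, hclprod]
      refine Finset.sum_congr rfl (fun j _ => ?_)
      rw [hclp, ZMod.natCast_zmod_val]
    show ∑ j ∈ P.support, P.coeff j • cl (um (g * δ ^ j) x) = 0
    rw [← h2, hy, map_pow, hclp, CharP.cast_eq_zero, zero_smul]) (by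
    intro g
    show cl (um (g * δ ^ e) x) = cl (um g x)
    have hcomm : g * δ ^ e = δ ^ e * g := by
      obtain ⟨i, hi⟩ := Subgroup.mem_zpowers_iff.1 (hgen g)
      rw [← hi]
      exact ((Commute.refl δ).zpow_left i).pow_right e
    rw [hcomm, um_mul]
    have h1 : um (δ ^ e) (um g x) = (um (δ ^ e) (um g x) / um g x) * um g x := by
      rw [div_mul_cancel]
    rw [h1, hclm]
    have h2 : cl (um (δ ^ e) (um g x) / um g x) = 0 := by
      rw [hcl0, Units.val_div_eq_div_val]
      exact hloc (um g x)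
    rw [h2, zero_add])
  have h1 : cl (um 1 x) = 0 := congrFun hn 1
  have h2 : um (1 : M ≃ₐ[K] M) x = x := by ext; rfl
  rw [h2] at h1
  exact (hcl0 x).1 h1

end Pool.Agent.Helper98.PPL
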